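import Pool.Agent.Q293.HF.Stm

/-!
Project HF (helper293), lemma job PT2, PCO: projective space is Hausdorff, continuity of `mk`.
-/

set_option autoImplicit false

open scoped LinearAlgebra.Projectivization

namespace Pool.Agent.Q217.HF

open Pool.Agent.Helper922.HB

universe u

theorem continuous_mk {ι : Type u} [Fintype ι] :
    Continuous (fun z : {z : ι → ℂ // z ≠ 0} => (Projectivization.mk ℂ z.1 z.2 : ℙ ℂ (ι → ℂ))) := by
  have h : (fun z : {z : ι → ℂ // z ≠ 0} => (Projectivization.mk ℂ z.1 z.2 : ℙ ℂ (ι → ℂ)))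
      = Projectivization.mk' ℂ := by
    funext z
    exact (Projectivization.mk'_eq_mk ℂ z).symm
  rw [h]
  exact continuous_coinduced_rng

theorem isOpen_proj_iff {ι : Type u} [Fintype ι] (W : Set (ℙ ℂ (ι → ℂ))) :
    IsOpen W ↔ IsOpen {z : {z : ι → ℂ // z ≠ 0} | Projectivization.mk ℂ z.1 z.2 ∈ W} := by
  have h1 : IsOpen W ↔ IsOpen ((Projectivization.mk' ℂ : {v : ι → ℂ // v ≠ 0} → _) ⁻¹' W) :=
    isOpen_coinduced
  rw [h1]
  have h2 : ((Projectivization.mk' ℂ : {v : ι → ℂ // v ≠ 0} → _) ⁻¹' W)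
      = {z : {z : ι → ℂ // z ≠ 0} | Projectivization.mk ℂ z.1 z.2 ∈ W} := by
    ext z
    rw [Set.mem_preimage, Projectivization.mk'_eq_mk]
    rfl
  rw [h2]

theorem t2Space_proj {ι : Type u} [Fintype ι] : T2Space (ℙ ℂ (ι → ℂ)) := by
  have hq : IsOpenQuotientMap
      (fun z : {z : ι → ℂ // z ≠ 0} => (Projectivization.mk ℂ z.1 z.2 : ℙ ℂ (ι → ℂ))) := by
    refine ⟨?_, continuous_mk, ?_⟩
    · intro p
      induction p with
      | h z hz => exact ⟨⟨z, hz⟩, rfl⟩
    · intro U hU
      rw [isOpen_proj_iff]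
      have h1 : {z : {z : ι → ℂ // z ≠ 0} | Projectivization.mk ℂ z.1 z.2 ∈
          (fun z : {z : ι → ℂ // z ≠ 0} => (Projectivization.mk ℂ z.1 z.2 : ℙ ℂ (ι → ℂ))) '' U}
          = ⋃ c : ℂˣ, (fun z : {z : ι → ℂ // z ≠ 0} =>
            (⟨(c : ℂ) • z.1, smul_ne_zero c.ne_zero z.2⟩ : {z : ι → ℂ // z ≠ 0})) ⁻¹' U := by
        ext z
        simp only [Set.mem_ofPred_eq, Set.mem_image, Set.mem_iUnion, Set.mem_preimage]
        constructor
        · rintro ⟨w, hw, he⟩
          rw [Projectivization.mk_eq_mk_iff'] at he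
          obtain ⟨a, ha⟩ := he
          have ha0 : a ≠ 0 := by
            rintro rfl
            rw [zero_smul] at ha
            exact w.2 ha.symm
          refine ⟨Units.mk0 a ha0, ?_⟩
          have : (⟨((Units.mk0 a ha0 : ℂˣ) : ℂ) • z.1, smul_ne_zero (Units.ne_zero _) z.2⟩ :
            {z : ι → ℂ // z ≠ 0}) = w := Subtype.ext ha
          rw [this]
          exact hw
        · rintro ⟨c, hc⟩
          refine ⟨_, hc, ?_⟩
          rw [Projectivization.mk_eq_mk_iff']
          exact ⟨(c : ℂ), rfl⟩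
      rw [h1]
      apply isOpen_iUnion
      intro c
      apply hU.preimage
      apply Continuous.subtype_mk
      fun_prop
  rw [t2Space_iff_of_isOpenQuotientMap hq]
  have h2 : {q : {z : ι → ℂ // z ≠ 0} × {z : ι → ℂ // z ≠ 0} |
      Projectivization.mk ℂ q.1.1 q.1.2 = Projectivization.mk ℂ q.2.1 q.2.2}
      = ⋂ i, ⋂ j, {q | q.1.1 i * q.2.1 j = q.1.1 j * q.2.1 i} := by
    ext q
    simp only [Set.mem_ofPred_eq, Set.mem_iInter]
    rw [Projectivization.mk_eq_mk_iff']
    constructor
    · rintro ⟨a, ha⟩ i j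
      rw [← ha]
      simp only [Pi.smul_apply, smul_eq_mul]
      ring
    · intro h
      obtain ⟨k, hk⟩ : ∃ k, q.2.1 k ≠ 0 := by
        by_contra hcon
        push Not at hcon
        exact q.2.2 (funext hcon)
      refine ⟨q.1.1 k / q.2.1 k, ?_⟩
      funext i
      simp only [Pi.smul_apply, smul_eq_mul]
      have := h i k
      field_simp
      rw [← this]
      ring
  have h3 := isClosed_iInter (fun i : ι => isClosed_iInter (fun j : ι =>
    isClosed_eq
      (f := fun q : {z : ι → ℂ // z ≠ 0} × {z : ι → ℂ // z ≠ 0} => q.1.1 i * q.2.1 j)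
      (g := fun q => q.1.1 j * q.2.1 i)
      (((continuous_apply i).comp (continuous_subtype_val.comp continuous_fst)).mul
        ((continuous_apply j).comp (continuous_subtype_val.comp continuous_snd)))
      (((continuous_apply j).comp (continuous_subtype_val.comp continuous_fst)).mul
        ((continuous_apply i).comp (continuous_subtype_val.comp continuous_snd)))))
  rw [← h2] at h3
  exact h3


open Pool.Agent.Q293.HF

theorem pt2 : S_PT2 := fun _ _ => t2Space_proj

theorem pco : S_PCO := by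
  intro ι _ T _ f hf hc
  exact continuous_mk.comp (hc.subtype_mk hf)

end Pool.Agent.Q217.HF
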